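import Pool.Agent.P8H2.Fin2

/-!
# The degree of the field generated by the first odd zeta values

Let `K` be a subfield of `ℝ` of finite degree over `ℚ` which contains `ζ(3), ζ(5), …, ζ(s)`. Then
`[K : ℚ] > (4 / 3) log s - 1.67`; moreover `[K : ℚ] ≥ 4` as soon as `s ≥ 23`, and `[K : ℚ] ≥ 5` as soon as `s ≥ 57`.

The proof compares the norm of a Hankel determinant of linear forms in `1, ζ(3), …, ζ(2h - 1)` with its archimedean
sizes.  Files: `Pool/Agent/P8H2/` (`PE … PL`: the class-sharp estimate of the denominators; `TA … TD`: the size of the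
real determinant; `T2A … T2H`: its sharper form by Jacobi polynomials; `PB1 … PB9`: the size of the conjugates;
`KA … KF`: its sharp form by Krawtchouk polynomials; `MA`, `Fin`, `Fin2`: conclusion).

Credits: helper2, helper89 (the size of the conjugates).
-/

set_option autoImplicit false

namespace Pool.Agent.Results.MP_a89d6d_nt.DegreeOfOddZetaField

/-- **The degree of the field of odd zeta values.** Let `s ≥ 3` be odd, and let `K ⊆ ℝ` be a number field that
contains `ζ(i) = ∑ 1 / (n + 1) ^ i` for every odd `i` with `3 ≤ i ≤ s`. Then `[K : ℚ] > (4 / 3) log s - 1.67`;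
moreover `[K : ℚ] ≥ 4` if `s ≥ 23`, and `[K : ℚ] ≥ 5` if `s ≥ 57`. -/
theorem result (s : ℕ) (hs : Odd s) (h3 : 3 ≤ s) (K : IntermediateField ℚ ℝ) [FiniteDimensional ℚ K]
    (hz : ∀ i : ℕ, Odd i → 3 ≤ i → i ≤ s → (∑' n : ℕ, 1 / ((n : ℝ) + 1) ^ i) ∈ K) :
    (4 / 3) * Real.log s - 167 / 100 < (Module.finrank ℚ K : ℝ) ∧
      (23 ≤ s → 4 ≤ Module.finrank ℚ K) ∧ (57 ≤ s → 5 ≤ Module.finrank ℚ K) :=
  Pool.Agent.P8H2.deg_final2 s hs h3 K hz

end Pool.Agent.Results.MP_a89d6d_nt.DegreeOfOddZetaField
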