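import Mathlib
import Pool.Agent.P8H10.ZOut
import Pool.Agent.P8H10.ZUnc
import Pool.Agent.Q163.LE.Meas
import Pool.Agent.Results.MP_c2395a_nt.PlaneDistanceZeta7

set_option autoImplicit false

/-!
# Odd zeta values outside finite-dimensional spaces over fields of Liouville numbers

A field `F` of real numbers is called simultaneously Liouville (`SimLiouville`) if for any finitely many elements
`x_1, …, x_m` of `F` and any `w` there are arbitrarily large `q` with `‖q x_i‖ < q ^ (-w)` for all `i`. The field of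
rational numbers is one of them, and there are such fields with the cardinality of the continuum, for instance, for any
sequence `T_n → ∞`, the field of all real numbers `x` which for some `A` and all `E` have rational approximations of height
at most `exp (A T_n)` with an error at most `exp (-E T_n)` for all large `n`.

(1) There is `s₀` such that for all `s ≥ s₀`, all `D` with `1 ≤ D ≤ log log s / 2000`, all simultaneously Liouville
fields `F` and all subspaces `V` of `ℝ` over `F` of dimension at most `D`, at least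
`(1 / (2000 D)) √(s log log s / log s)` of the odd `i`, `3 ≤ i ≤ s`, have `ζ(i) ∉ V`.

(2) So the odd zeta values span a space of infinite dimension over every simultaneously Liouville field `F`, and
infinitely many of them lie outside every given finite-dimensional space over `F`.

(3) For all real numbers `y_1, …, y_r` (for instance `π, ζ(3), …, ζ(2r-1)`) and all `d`, infinitely many odd zeta values
are not values at `y` of polynomials of degree at most `d` with coefficients in `F`; and infinitely many are outside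
every given extension of `F` of finite degree.

(4) `1, ζ(3), ζ(5), ζ(7)` span a space of dimension at least three over `F`.

(5) There is a simultaneously Liouville field with the cardinality of the continuum.

For `F = ℚ` (1) is the starting result `OutsideSubspaces` of this folder, and (4) is the starting result
`MP_c2395a_nt/PlaneDistanceZeta7`. The proof of (1): the coefficients of the numbers `ζ(i) ∈ V` with respect to a basis of
`V` over `F` have extremely good simultaneous approximations with a common denominator `M`; Dirichlet's theorem for the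
basis, with a denominator `q` bounded by a fixed power of `M`, gives the approximations `‖M q ζ(i)‖ < (M q) ^ (-1/(D+1))`,
which contradict the starting result `MP_c2395a_nt/SimultaneousApproximation` on the approximation of odd zeta values.
-/

namespace Pool.Agent.Results.MP_a89d6d_nt.OutsideLiouvilleSubspaces

open Cardinal

/-- `ζ(i) = ∑ 1 / (n + 1) ^ i` -/
noncomputable def zeta (i : ℕ) : ℝ := ∑' n : ℕ, 1 / ((n : ℝ) + 1) ^ i

/-- any finitely many elements of `F` have simultaneous rational approximations of any order -/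
def SimLiouville (F : Subfield ℝ) : Prop :=
  ∀ s : Finset ℝ, (∀ x ∈ s, x ∈ F) → ∀ w q0 : ℕ, ∃ q : ℕ, q0 ≤ q ∧ 1 ≤ q ∧
    ∀ x ∈ s, ∃ p : ℤ, |(q : ℝ) * x - p| < 1 / (q : ℝ) ^ w

theorem infinite {F : Subfield ℝ} (hF : SimLiouville F) (V : Submodule F ℝ) (hV : FiniteDimensional F V) :
    {i : ℕ | 3 ≤ i ∧ Odd i ∧ zeta i ∉ V}.Infinite := by
  obtain ⟨s0, hs0⟩ := Pool.Agent.P8H10.ZOut.t_subF
  intro hfin
  obtain ⟨D, hD⟩ : ∃ D : ℕ, D = Module.finrank F V + 1 := ⟨_, rfl⟩
  have hDr : (1 : ℝ) ≤ D := by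
    have : 1 ≤ D := by omega
    exact_mod_cast this
  -- the lower bound tends to infinity
  have hlog : Filter.Tendsto (fun s : ℕ => Real.log (Real.log s)) Filter.atTop Filter.atTop :=
    Real.tendsto_log_atTop.comp (Real.tendsto_log_atTop.comp tendsto_natCast_atTop_atTop)
  have hsl : Filter.Tendsto (fun s : ℕ => (s : ℝ) / Real.log s) Filter.atTop Filter.atTop := by
    have h1 : Filter.Tendsto (fun x : ℝ => x / Real.log x) Filter.atTop Filter.atTop := by
      have h2 := Real.isLittleO_log_id_atTop.tendsto_div_nhds_zero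
      have h3 : ∀ᶠ x : ℝ in Filter.atTop, 0 < Real.log x / x := by
        filter_upwards [Filter.eventually_gt_atTop 1] with x hx
        exact div_pos (Real.log_pos hx) (by linarith)
      have h4 := (tendsto_nhdsWithin_iff.2 ⟨h2, h3⟩).inv_tendsto_nhdsGT_zero
      refine h4.congr fun x => ?_
      simp only [Pi.inv_apply, id, inv_div]
    exact h1.comp tendsto_natCast_atTop_atTop
  have h5 : ∀ᶠ s : ℕ in Filter.atTop, 1 ≤ Real.log (Real.log s) ∧ (D : ℝ) ≤ (1 / 2000) * Real.log (Real.log s) ∧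
      ((2000 * D * ({i : ℕ | 3 ≤ i ∧ Odd i ∧ zeta i ∉ V}.ncard + 1 : ℝ)) ^ 2 ≤ (s : ℝ) / Real.log s) ∧ s0 ≤ s := by
    filter_upwards [hlog.eventually_ge_atTop (max 1 (2000 * D)), hsl.eventually_ge_atTop _,
      Filter.eventually_ge_atTop s0] with s h1 h2 h3
    refine ⟨(le_max_left _ _).trans h1, ?_, h2, h3⟩
    have := (le_max_right _ _).trans h1
    linarith
  obtain ⟨s, h6, h7, h8, h9⟩ := h5.exists
  have h10 := hs0 s h9 D (by omega) h7 F hF V hV (by omega)
  have h11 : (2000 * D * ({i : ℕ | 3 ≤ i ∧ Odd i ∧ zeta i ∉ V}.ncard + 1 : ℝ)) ≤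
      Real.sqrt (s * Real.log (Real.log s) / Real.log s) := by
    refine Real.le_sqrt_of_sq_le (h8.trans ?_)
    have h12 : 0 ≤ (s : ℝ) / Real.log s := le_trans (by positivity) h8
    calc (s : ℝ) / Real.log s = (s : ℝ) / Real.log s * 1 := (mul_one _).symm
      _ ≤ (s : ℝ) / Real.log s * Real.log (Real.log s) := mul_le_mul_of_nonneg_left h6 h12
      _ = _ := by ring
  have h13 : ({i : ℕ | 3 ≤ i ∧ Odd i ∧ zeta i ∉ V}.ncard : ℝ) + 1 ≤
      (1 / 2000) / D * Real.sqrt (s * Real.log (Real.log s) / Real.log s) := by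
    calc ({i : ℕ | 3 ≤ i ∧ Odd i ∧ zeta i ∉ V}.ncard : ℝ) + 1 = (1 / 2000) / D *
          (2000 * D * ({i : ℕ | 3 ≤ i ∧ Odd i ∧ zeta i ∉ V}.ncard + 1 : ℝ)) := by field_simp
      _ ≤ _ := mul_le_mul_of_nonneg_left h11 (by positivity)
  have h14 : ({i : ℕ | 3 ≤ i ∧ i ≤ s ∧ Odd i ∧ Pool.Agent.P8H10.ZOut.zo i ∉ V}.ncard : ℝ) ≤
      ({i : ℕ | 3 ≤ i ∧ Odd i ∧ zeta i ∉ V}.ncard : ℝ) := by
    have hsub : {i : ℕ | 3 ≤ i ∧ i ≤ s ∧ Odd i ∧ Pool.Agent.P8H10.ZOut.zo i ∉ V} ⊆
        {i : ℕ | 3 ≤ i ∧ Odd i ∧ zeta i ∉ V} := fun i hi => ⟨hi.1, hi.2.2.1, hi.2.2.2⟩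
    exact_mod_cast Set.ncard_le_ncard hsub hfin
  linarith

theorem result :
    -- (1)
    (∃ s0 : ℕ, ∀ s ≥ s0, ∀ D : ℕ, 1 ≤ D → (D : ℝ) ≤ (1 / 2000) * Real.log (Real.log s) →
      ∀ F : Subfield ℝ, SimLiouville F → ∀ V : Submodule F ℝ, FiniteDimensional F V →
      Module.finrank F V ≤ D →
      (1 / 2000) / D * Real.sqrt (s * Real.log (Real.log s) / Real.log s) ≤
        (Set.ncard {i : ℕ | 3 ≤ i ∧ i ≤ s ∧ Odd i ∧ zeta i ∉ V} : ℝ)) ∧
    -- (5)
    (∃ F : Subfield ℝ, SimLiouville F ∧ #F = 𝔠) ∧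
    ∀ F : Subfield ℝ, SimLiouville F →
      -- (2)
      (∀ V : Submodule F ℝ, FiniteDimensional F V → {i : ℕ | 3 ≤ i ∧ Odd i ∧ zeta i ∉ V}.Infinite) ∧
      ¬ FiniteDimensional F (Submodule.span F {x : ℝ | ∃ i : ℕ, 3 ≤ i ∧ Odd i ∧ x = zeta i}) ∧
      -- (3)
      (∀ (r d : ℕ) (y : Fin r → ℝ), {i : ℕ | 3 ≤ i ∧ Odd i ∧
        ∀ P : MvPolynomial (Fin r) F, P.totalDegree ≤ d → zeta i ≠ MvPolynomial.aeval y P}.Infinite) ∧
      (∀ K : IntermediateField F ℝ, FiniteDimensional F K → {i : ℕ | 3 ≤ i ∧ Odd i ∧ zeta i ∉ K}.Infinite) ∧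
      -- (4)
      3 ≤ Module.finrank F (Submodule.span F {1, zeta 3, zeta 5, zeta 7}) := by
  refine ⟨Pool.Agent.P8H10.ZOut.t_subF, Pool.Agent.P8H10.ZOut.exists_big,
    fun F hF => ⟨fun V hV => infinite hF V hV, ?_, ?_, ?_, ?_⟩⟩
  · intro hfin
    obtain ⟨i, h1, h2, h3⟩ := (infinite hF _ hfin).nonempty
    exact h3 (Submodule.subset_span ⟨i, h1, h2, rfl⟩)
  · intro r d y
    have hfin : FiniteDimensional F (MvPolynomial.restrictTotalDegree (Fin r) F d) := inferInstance
    have h := infinite hF ((MvPolynomial.restrictTotalDegree (Fin r) F d).map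
      (MvPolynomial.aeval y : MvPolynomial (Fin r) F →ₐ[F] ℝ).toLinearMap) inferInstance
    refine h.mono ?_
    rintro i ⟨h1, h2, h3⟩
    refine ⟨h1, h2, fun P hP hi => h3 ?_⟩
    exact ⟨P, (MvPolynomial.mem_restrictTotalDegree (Fin r) d P).2 hP, hi.symm⟩
  · intro K hK
    exact infinite hF (Subalgebra.toSubmodule K.toSubalgebra) hK
  · obtain ⟨⟨c, hc, h⟩, -⟩ := Pool.Agent.Results.MP_c2395a_nt.PlaneDistanceZeta7.result
    have hfin : FiniteDimensional F (Submodule.span F ({1, zeta 3, zeta 5, zeta 7} : Set ℝ)) :=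
      FiniteDimensional.span_of_finite F (Set.toFinite _)
    refine Pool.Agent.Q163.LE.plane hF {3, 5, 7} zeta 1070 c hc (fun q a b θ H hq hqH hb => ?_) _
      (Submodule.subset_span (by simp)) ?_
    · obtain ⟨i, hi, hle⟩ := h q a b θ H hq hqH (hb 3 (by simp)) (hb 5 (by simp)) (hb 7 (by simp))
      refine ⟨i, ?_, hle⟩
      simpa using hi
    · intro i hi
      simp only [Finset.mem_insert, Finset.mem_singleton] at hi
      rcases hi with rfl | rfl | rfl <;> exact Submodule.subset_span (by simp)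

end Pool.Agent.Results.MP_a89d6d_nt.OutsideLiouvilleSubspaces
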