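import Mathlib
import Pool.Agent.P8H73.PZ.Names
import Pool.Agent.P8H10.ZUnc
import Pool.Agent.Results.MP_48b3e2_nt.IncompleteZetaValues

set_option autoImplicit false

/-!
# `π`, zeta values and Hurwitz zeta values as integrals over octants, over fields of Liouville numbers

A field `F` of real numbers is called simultaneously Liouville (`SimLiouville`) if for any finitely many elements
`x_1, …, x_m` of `F` and any `w` there are arbitrarily large `q` with `‖q x_i‖ < q ^ (-w)` for all `i`. The field of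
rational numbers is one of them, and some of them have the cardinality of the continuum.

There are three kinds of names `n`; all parameters `a`, `x` are rational, `x > 0`.

* `(a, x)`, `0 < a ≤ 1/2`: the number `π` is `sin (π a) ∬ s ^ (a - 1) t ^ (-a) exp (-s - t) ds dt` over the quadrant.
* `(k, x)`, `k ≥ 2`: the number `ζ(k)` is `(-1)^k / k! ∫ (∑_j ω^j log t_j)^k exp (-∑_j t_j) dt` over the octant
  `(0, ∞)^k`, `ω = exp (2 π i / k)`.
* `(k, a, x)`, `k ≥ 2`, `0 < a < 1`: the number `(π / sin (π a))^k ζ(k, a)`, `ζ(k, a) = ∑_{m ≥ 0} (m + a)^(-k)`, is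
  `(-1)^k / k! ∫ (∑_j ω^j log s_j)^k ∏_j s_j ^ (a - 1) t_j ^ (-a) exp (-s_j - t_j) ds dt` over the octant `(0, ∞)^(2k)`.

In each case `full n` is the number, `inner n` is the integral over the points all of whose coordinates are smaller
than `x`, and `outer n` is the integral over the other points; so that `full n = inner n + outer n`.

For every simultaneously Liouville field `F`:

(1) `e` and the numbers `inner n`, for all names `n`, are algebraically independent over `F`.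

(2) Let `y_1, …, y_r` be real numbers and let `𝒩` be the set of the names `n` for which `full n` is algebraic over
`F(e, y_1, …, y_r)`. At most `r` of the numbers `y_1, …, y_r` and `outer n` (`n ∈ 𝒩`) are algebraic over `F(e)`, and
for all finite `S ⊆ 𝒩` the transcendence degrees over `F` satisfy
`trdeg F(e, y_1, …, y_r, outer n : n ∈ S) ≥ |S| + 1` and `trdeg F(e, outer n : n ∈ S) + r ≥ |S| + 1`.

(3) Let `c ≥ 0` and let `𝒩_c` be the set of all names `(a, x)` and of the names `(k, x)` and `(k, 1/2, x)` with `k`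
even or `k ≤ 2c + 1`; their full values are `π`, `ζ(k)` and `(2^k - 1) π^k ζ(k)`. At most `c + 1` of the numbers
`π, ζ(3), ζ(5), …, ζ(2c+1)` and `outer n` (`n ∈ 𝒩_c`) are algebraic over `F(e)`. If `e, π, ζ(3), …, ζ(2c+1)` are
algebraically dependent over `F` (for example if `π, ζ(3), …, ζ(2c+1)` are algebraically dependent over `ℚ`), then at
most `c` of the numbers `outer n` (`n ∈ 𝒩_c`) are algebraic over `F(e)`, and
`trdeg F(e, outer n : n ∈ S) + c ≥ |S| + 1` for all finite `S ⊆ 𝒩_c`.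
-/

namespace Pool.Agent.Results.MP_a89d6d_nt.PiZetaHurwitz

open Set MeasureTheory Cardinal

/-- any finitely many elements of `F` have simultaneous rational approximations of any order -/
def SimLiouville (F : Subfield ℝ) : Prop :=
  ∀ s : Finset ℝ, (∀ x ∈ s, x ∈ F) → ∀ w q0 : ℕ, ∃ q : ℕ, q0 ≤ q ∧ 1 ≤ q ∧
    ∀ x ∈ s, ∃ p : ℤ, |(q : ℝ) * x - p| < 1 / (q : ℝ) ^ w

/-- the zeta value `ζ(k)` -/
noncomputable def zeta (k : ℕ) : ℝ := ∑' m : ℕ, 1 / ((m : ℝ) + 1) ^ k

/-- the Hurwitz zeta value `ζ(k, a)` -/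
noncomputable def hurwitz (k : ℕ) (a : ℝ) : ℝ := ∑' m : ℕ, 1 / ((m : ℝ) + a) ^ k

/-- `ω = exp (2 π i / k)` -/
noncomputable def root (k : ℕ) : ℂ := Complex.exp (2 * Real.pi * Complex.I / k)

/-- `s ^ (a - 1) * t ^ (-a) * exp (-s - t)` -/
noncomputable def f (a s t : ℝ) : ℝ := s ^ (a - 1) * t ^ (-a) * Real.exp (-(s + t))

/-- the real part of the normalized integral of `(∑_j ω^j log t_j)^k exp (-∑_j t_j)` over `D` -/
noncomputable def I (k : ℕ) (D : Set (Fin k → ℝ)) : ℝ :=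
  ((-1) ^ k / k.factorial * ∫ t in D,
    (∑ j : Fin k, root k ^ (j : ℕ) * (Real.log (t j) : ℂ)) ^ k * ((Real.exp (-∑ j, t j) : ℝ) : ℂ)).re

/-- the real part of the normalized integral of `(∑_j ω^j log s_j)^k ∏_j f(s_j, t_j)` over `D` -/
noncomputable def H (k : ℕ) (a : ℝ) (D : Set ((Fin k → ℝ) × (Fin k → ℝ))) : ℝ :=
  ((-1) ^ k / k.factorial * ∫ p in D,
    (∑ j : Fin k, root k ^ (j : ℕ) * (Real.log (p.1 j) : ℂ)) ^ k * ((∏ j, f a (p.1 j) (p.2 j) : ℝ) : ℂ)).re

/-- names: `(a, x)`, `(k, x)`, `(k, a, x)` -/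
abbrev Name : Type := (ℚ × ℚ) ⊕ ((ℕ × ℚ) ⊕ (ℕ × ℚ × ℚ))

/-- the admissible names -/
def Admissible : Name → Prop
  | .inl p => 0 < p.1 ∧ p.1 ≤ 1 / 2 ∧ 0 < p.2
  | .inr (.inl p) => 2 ≤ p.1 ∧ 0 < p.2
  | .inr (.inr p) => 2 ≤ p.1 ∧ 0 < p.2.1 ∧ p.2.1 < 1 ∧ 0 < p.2.2

/-- the values: `π`, `ζ(k)`, `(π / sin (π a))^k ζ(k, a)` -/
noncomputable def full : Name → ℝ
  | .inl _ => Real.pi
  | .inr (.inl p) => zeta p.1
  | .inr (.inr p) => (Real.pi / Real.sin (Real.pi * p.2.1)) ^ p.1 * hurwitz p.1 p.2.1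

/-- the integrals over the points with all coordinates smaller than `x` -/
noncomputable def inner : Name → ℝ
  | .inl p => Real.sin (Real.pi * p.1) *
      ∫ z in {z : ℝ × ℝ | 0 < z.1 ∧ 0 < z.2 ∧ max z.1 z.2 < p.2}, f p.1 z.1 z.2
  | .inr (.inl p) => I p.1 {t | ∀ j, 0 < t j ∧ t j < p.2}
  | .inr (.inr p) => H p.1 p.2.1 {z | ∀ j, (0 < z.1 j ∧ z.1 j < p.2.2) ∧ (0 < z.2 j ∧ z.2 j < p.2.2)}

/-- the integrals over the points with a coordinate which is at least `x` -/
noncomputable def outer : Name → ℝ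
  | .inl p => Real.sin (Real.pi * p.1) *
      ∫ z in {z : ℝ × ℝ | 0 < z.1 ∧ 0 < z.2 ∧ p.2 ≤ max z.1 z.2}, f p.1 z.1 z.2
  | .inr (.inl p) => I p.1 {t | (∀ j, 0 < t j) ∧ ∃ j, p.2 ≤ t j}
  | .inr (.inr p) => H p.1 p.2.1 {z | (∀ j, 0 < z.1 j ∧ 0 < z.2 j) ∧ ∃ j, p.2.2 ≤ z.1 j ∨ p.2.2 ≤ z.2 j}

/-- `x` is algebraic over `F(e)` -/
def AlgebraicOverE (F : Subfield ℝ) (x : ℝ) : Prop := IsAlgebraic (IntermediateField.adjoin F {Real.exp 1}) x

/-- `x` is algebraic over `F(e, y_1, …, y_r)` -/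
def AlgebraicOverEAnd (F : Subfield ℝ) {r : ℕ} (y : Fin r → ℝ) (x : ℝ) : Prop :=
  IsAlgebraic (IntermediateField.adjoin F ({Real.exp 1} ∪ range y)) x

/-- the numbers `π, ζ(3), ζ(5), …, ζ(2c+1)` -/
noncomputable def constants (c : ℕ) : Fin (c + 1) → ℝ := Fin.cons Real.pi fun i : Fin c => zeta (2 * i + 3)

/-- the set `𝒩_c`: all `(a, x)`, and `(k, x)`, `(k, 1/2, x)` with `k` even or `k ≤ 2c+1` -/
def upTo (c : ℕ) : Set Name :=
  {n | Admissible n ∧ match n with
    | .inl _ => True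
    | .inr (.inl p) => Even p.1 ∨ p.1 ≤ 2 * c + 1
    | .inr (.inr p) => p.2.1 = 1 / 2 ∧ (Even p.1 ∨ p.1 ≤ 2 * c + 1)}

/-- the indices of those of the numbers `y_j` and `outer n`, `n ∈ N`, which are algebraic over `F(e)` -/
def algebraicOnes (F : Subfield ℝ) {r : ℕ} (y : Fin r → ℝ) (N : Set Name) : Set (Fin r ⊕ Name) :=
  {i | Sum.elim (fun j => AlgebraicOverE F (y j)) (fun n => n ∈ N ∧ AlgebraicOverE F (outer n)) i}

open Pool.Agent.P8H73.PZ Pool.Agent.P8H73.GT Pool.Agent.P8H10.MF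

theorem zeta_half {k : ℕ} (hk : 2 ≤ k) : hurwitz k (1 / 2) = (2 ^ k - 1) * zeta k := by
  have hs : Summable (fun m : ℕ => 1 / ((m : ℝ) + 1) ^ k) := by
    have := (summable_nat_add_iff 1).2 (Real.summable_one_div_nat_pow.2 (show 1 < k by omega))
    refine this.congr fun n => ?_
    push_cast
    rfl
  have h1 : Summable (fun m : ℕ => 1 / (((2 * m : ℕ) : ℝ) + 1) ^ k) :=
    hs.comp_injective (i := fun m : ℕ => 2 * m) (fun a b h => by simpa using h)
  have h2 : Summable (fun m : ℕ => 1 / (((2 * m + 1 : ℕ) : ℝ) + 1) ^ k) :=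
    hs.comp_injective (i := fun m : ℕ => 2 * m + 1) (fun a b h => by simpa using h)
  have h3 := tsum_even_add_odd (f := fun m : ℕ => 1 / ((m : ℝ) + 1) ^ k) h1 h2
  have h4 : ∑' m : ℕ, 1 / (((2 * m + 1 : ℕ) : ℝ) + 1) ^ k = 1 / 2 ^ k * zeta k := by
    rw [zeta, ← tsum_mul_left]
    refine tsum_congr fun m => ?_
    have : (((2 * m + 1 : ℕ) : ℝ) + 1) = 2 * ((m : ℝ) + 1) := by push_cast; ring
    rw [this, mul_pow]
    have h0 : ((m : ℝ) + 1) ^ k ≠ 0 := by positivity
    field_simp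
  have h5 : hurwitz k (1 / 2) = 2 ^ k * ∑' m : ℕ, 1 / (((2 * m : ℕ) : ℝ) + 1) ^ k := by
    rw [hurwitz, ← tsum_mul_left]
    refine tsum_congr fun m => ?_
    have : (((2 * m : ℕ) : ℝ) + 1) = 2 * ((m : ℝ) + 1 / 2) := by push_cast; ring
    rw [this, mul_pow]
    have h0 : ((m : ℝ) + 1 / 2) ^ k ≠ 0 := by positivity
    field_simp
  rw [h4] at h3
  have h6 : ∑' m : ℕ, 1 / ((m : ℝ) + 1) ^ k = zeta k := rfl
  rw [h6] at h3
  rw [h5]
  have h7 : ∑' m : ℕ, 1 / (((2 * m : ℕ) : ℝ) + 1) ^ k = zeta k - 1 / 2 ^ k * zeta k := by linarith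
  rw [h7]
  field_simp

theorem adm {n : Name} (h : Admissible n) : Val n := by
  rcases n with p | p | p <;> exact h

theorem full_eq (n : Name) : full n = vN n := by
  rcases n with p | p | p <;> rfl

theorem H_integrand (k : ℕ) (a : ℝ) (p : (Fin k → ℝ) × (Fin k → ℝ)) :
    (∑ j : Fin k, root k ^ (j : ℕ) * (Real.log (p.1 j) : ℂ)) ^ k * ((∏ j, f a (p.1 j) (p.2 j) : ℝ) : ℂ) =
      HI k a p := by
  have h1 : ∏ j, f a (p.1 j) (p.2 j) = (∏ j, wa a (p.1 j)) * ∏ j, wa (1 - a) (p.2 j) := by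
    rw [← Finset.prod_mul_distrib]
    refine Finset.prod_congr rfl fun j _ => ?_
    have e : (1 - a - 1 : ℝ) = -a := by ring
    rw [f, wa, wa, e, neg_add, Real.exp_add]
    ring
  rw [h1, HI, FW, FW, pow_zero, one_mul]
  push_cast
  have h2 : root k = Pool.Agent.R352.Q.om k := rfl
  rw [h2]
  ring

theorem H_eq (k : ℕ) (a : ℝ) (D : Set ((Fin k → ℝ) × (Fin k → ℝ))) : H k a D = (NH k a D).re := by
  rw [H, NH]
  simp only [H_integrand]

theorem cub_in (k : ℕ) (x : ℝ) : {z : (Fin k → ℝ) × (Fin k → ℝ) | ∀ j, (0 < z.1 j ∧ z.1 j < x) ∧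
    (0 < z.2 j ∧ z.2 j < x)} = cub k (Ioo 0 x) := by
  ext z
  simp only [cub, mem_prod, mem_univ_pi, mem_Ioo, Set.mem_ofPred_eq]
  exact ⟨fun h => ⟨fun j => (h j).1, fun j => (h j).2⟩, fun h j => ⟨h.1 j, h.2 j⟩⟩

theorem cub_out (k : ℕ) (x : ℝ) : {z : (Fin k → ℝ) × (Fin k → ℝ) | (∀ j, 0 < z.1 j ∧ 0 < z.2 j) ∧
    ∃ j, x ≤ z.1 j ∨ x ≤ z.2 j} = cub k (Ioi 0) \ cub k (Ioo 0 x) := by
  ext z
  simp only [cub, mem_sdiff, mem_prod, mem_univ_pi, mem_Ioo, mem_Ioi, Set.mem_ofPred_eq]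
  constructor
  · rintro ⟨h1, j, h2⟩
    refine ⟨⟨fun j => (h1 j).1, fun j => (h1 j).2⟩, fun h => ?_⟩
    rcases h2 with h2 | h2
    · exact absurd (h.1 j).2 (not_lt.2 h2)
    · exact absurd (h.2 j).2 (not_lt.2 h2)
  · rintro ⟨⟨h1, h1'⟩, h2⟩
    refine ⟨fun j => ⟨h1 j, h1' j⟩, ?_⟩
    by_contra hcon
    push Not at hcon
    exact h2 ⟨fun j => ⟨h1 j, (hcon j).1⟩, fun j => ⟨h1' j, (hcon j).2⟩⟩

theorem inner_eq {n : Name} (hn : Admissible n) : inner n = cN n := by
  rcases n with ⟨a, x⟩ | ⟨k, x⟩ | ⟨k, a, x⟩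
  · rfl
  · exact Pool.Agent.Results.MP_48b3e2_nt.IncompleteZetaValues.C_eq hn.1 hn.2
  · obtain ⟨h1, h2, h3, h4⟩ := hn
    have h2' : (0 : ℝ) < a := by exact_mod_cast h2
    have h3' : (a : ℝ) < 1 := by exact_mod_cast h3
    have h4' : (0 : ℝ) < x := by exact_mod_cast h4
    show H k a {z | ∀ j, (0 < z.1 j ∧ z.1 j < x) ∧ (0 < z.2 j ∧ z.2 j < x)} = Hk k a x
    rw [cub_in, H_eq, NH_box h2' h3' h1 h4', Complex.ofReal_re]

theorem outer_eq {n : Name} (hn : Admissible n) : outer n = rN n := by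
  rcases n with ⟨a, x⟩ | ⟨k, x⟩ | ⟨k, a, x⟩
  · obtain ⟨h1, h2, h3⟩ := hn
    have h1' : (0 : ℝ) < a := by exact_mod_cast h1
    have h2' : (a : ℝ) < 1 := by
      have : a < 1 := lt_of_le_of_lt h2 (by norm_num)
      exact_mod_cast this
    exact Pt_eq h1' h2' x
  · exact Pool.Agent.Results.MP_48b3e2_nt.IncompleteZetaValues.R_eq hn.1 hn.2
  · obtain ⟨h1, h2, h3, h4⟩ := hn
    have h2' : (0 : ℝ) < a := by exact_mod_cast h2
    have h3' : (a : ℝ) < 1 := by exact_mod_cast h3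
    have h4' : (0 : ℝ) < x := by exact_mod_cast h4
    show H k a {z | (∀ j, 0 < z.1 j ∧ 0 < z.2 j) ∧ ∃ j, x ≤ z.1 j ∨ x ≤ z.2 j} =
      (Real.pi / Real.sin (Real.pi * a)) ^ k * zH k a - Hk k a x
    rw [cub_out, H_eq, NH_diff h2' h3', NH_full h2' h3' h1, NH_box h2' h3' h1 h4', Complex.sub_re,
      Complex.ofReal_re, Complex.ofReal_re]

theorem mem_e {F : Subfield ℝ} {x : ℝ} : AlgebraicOverE F x ↔ x ∈ clF F {Real.exp 1} := mem_clF.symm

theorem main {F : Subfield ℝ} (hF : SimLiouville F) {r : ℕ} (y : Fin r → ℝ) (N : Set Name)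
    (hN : ∀ n ∈ N, Admissible n ∧ AlgebraicOverEAnd F y (full n)) :
    (algebraicOnes F y N).encard ≤ (r : ℕ∞) := by
  refine Pool.Agent.R352.E.encard_le_of_finset _ _ fun t ht => ?_
  refine countN hF y t (fun i hi => ?_) (fun n hn => ?_)
  · have h1 := ht hi
    cases i with
    | inl j => exact mem_clF.2 h1
    | inr n =>
      obtain ⟨h2, h3⟩ := h1
      rw [outer_eq (hN n h2).1] at h3
      exact mem_clF.2 h3
  · have h1 := hN n (ht hn).1
    rw [full_eq] at h1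
    exact ⟨h1.1, mem_clF.2 h1.2⟩

theorem outer_image {S : Finset Name} (hS : ∀ n ∈ S, Admissible n) :
    outer '' (S : Set Name) = rN '' (S : Set Name) :=
  image_congr fun n hn => outer_eq (hS n hn)

theorem main_trdeg {F : Subfield ℝ} (hF : SimLiouville F) {r : ℕ} (y : Fin r → ℝ) (S : Finset Name)
    (hS : ∀ n ∈ S, Admissible n ∧ AlgebraicOverEAnd F y (full n)) :
    ((S.card + 1 : ℕ) : Cardinal) ≤ Algebra.trdeg F (IntermediateField.adjoin F
      ({Real.exp 1} ∪ range y ∪ outer '' (S : Set Name))) ∧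
    ((S.card + 1 : ℕ) : Cardinal) ≤ Algebra.trdeg F (IntermediateField.adjoin F
      ({Real.exp 1} ∪ outer '' (S : Set Name))) + r := by
  rw [outer_image fun n hn => (hS n hn).1]
  have h : ∀ n ∈ S, Val n ∧ vN n ∈ clF F ({Real.exp 1} ∪ range y) := by
    intro n hn
    have h1 := hS n hn
    rw [full_eq] at h1
    exact ⟨h1.1, mem_clF.2 h1.2⟩
  exact ⟨trdegN hF y S h, trdegN' hF y S h⟩

theorem constants_mem {F : Subfield ℝ} {c r : ℕ} (y : Fin r → ℝ)
    (hy : ∀ i, constants c i ∈ clF F ({Real.exp 1} ∪ range y)) {n : Name} (hn : n ∈ upTo c) :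
    AlgebraicOverEAnd F y (full n) := by
  refine mem_clF.1 ?_
  have hpi : Real.pi ∈ clF F ({Real.exp 1} ∪ range y) := hy 0
  have hz : ∀ k : ℕ, 2 ≤ k → (Even k ∨ k ≤ 2 * c + 1) → zeta k ∈ clF F ({Real.exp 1} ∪ range y) := by
    intro k hk h
    rcases Nat.even_or_odd' k with ⟨j, rfl | rfl⟩
    · have h1 := hasSum_zeta_nat (k := j) (by omega)
      have h2 : zeta (2 * j) =
          (-1 : ℝ) ^ (j + 1) * (2 : ℝ) ^ (2 * j - 1) * Real.pi ^ (2 * j) * bernoulli (2 * j) / (2 * j).factorial := by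
        rw [← h1.tsum_eq, zeta]
        have hs : Summable (fun n : ℕ => 1 / (n : ℝ) ^ (2 * j)) := h1.summable
        rw [← hs.sum_add_tsum_nat_add 1]
        simp only [Finset.sum_range_succ, Finset.sum_range_zero, zero_add]
        have h0 : (0 : ℝ) ^ (2 * j) = 0 := zero_pow (by omega)
        rw [Nat.cast_zero, h0, div_zero, zero_add]
        refine tsum_congr fun n => ?_
        push_cast
        rfl
      rw [h2]
      refine Subfield.div_mem _ (Subfield.mul_mem _ (Subfield.mul_mem _ (Subfield.mul_mem _ ?_ ?_)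
        (Subfield.pow_mem _ hpi _)) ?_) (natCast_mem _ _)
      · exact neg_pow_mem _ _
      · refine Subfield.pow_mem _ ?_ _
        exact_mod_cast natCast_mem (clF F ({Real.exp 1} ∪ range y)) 2
      · exact SubfieldClass.ratCast_mem _ _
    · have h1 : 2 * j + 1 ≤ 2 * c + 1 := by
        rcases h with h | h
        · exact absurd h (by simp)
        · exact h
      have h2 := hy (Fin.succ ⟨j - 1, by omega⟩)
      simp only [constants, Fin.cons_succ] at h2
      have e : 2 * (j - 1) + 3 = 2 * j + 1 := by omega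
      rw [e] at h2
      exact h2
  rcases n with ⟨a, x⟩ | ⟨k, x⟩ | ⟨k, a, x⟩
  · exact hpi
  · exact hz k hn.1.1 hn.2
  · obtain ⟨h1, h2, h3⟩ := hn
    simp only at h2
    subst h2
    have h4 : full (Sum.inr (Sum.inr (k, 1 / 2, x))) = Real.pi ^ k * ((2 ^ k - 1) * zeta k) := by
      show (Real.pi / Real.sin (Real.pi * ((1 / 2 : ℚ) : ℝ))) ^ k * hurwitz k ((1 / 2 : ℚ) : ℝ) = _
      have e : ((1 / 2 : ℚ) : ℝ) = 1 / 2 := by push_cast; rfl
      rw [e, zeta_half h1.1, mul_one_div, Real.sin_pi_div_two, div_one]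
    rw [h4]
    refine Subfield.mul_mem _ (Subfield.pow_mem _ hpi _) (Subfield.mul_mem _ (Subfield.sub_mem _ (Subfield.pow_mem _ ?_ _)
      (Subfield.one_mem _)) (hz k h1.1 h3))
    exact_mod_cast natCast_mem (clF F ({Real.exp 1} ∪ range y)) 2

theorem e_indep {F : Subfield ℝ} (hF : SimLiouville F) : AlgebraicIndependent F (fun _ : Unit => Real.exp 1) :=
  (AI_all hF).comp (fun _ : Unit => none) (fun _ _ _ => rfl)

theorem dep_count {F : Subfield ℝ} (hF : SimLiouville F) (c : ℕ)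
    (hdep : ¬ AlgebraicIndependent F (fun o : Option (Fin (c + 1)) => o.elim (Real.exp 1) (constants c))) :
    {n : Name | n ∈ upTo c ∧ AlgebraicOverE F (outer n)}.encard ≤ (c : ℕ∞) ∧
    ∀ S : Finset Name, (∀ n ∈ S, n ∈ upTo c) →
      ((S.card + 1 : ℕ) : Cardinal) ≤ Algebra.trdeg F (IntermediateField.adjoin F
        ({Real.exp 1} ∪ outer '' (S : Set Name))) + c := by
  obtain ⟨y, hy⟩ := dependent (constants c) hdep (e_indep hF)
  have hall : ∀ n ∈ upTo c, Admissible n ∧ AlgebraicOverEAnd F y (full n) := fun n hn =>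
    ⟨hn.1, constants_mem y hy hn⟩
  refine ⟨?_, fun S hS => (main_trdeg hF y S fun n hn => hall n (hS n hn)).2⟩
  have h := main hF y (upTo c) hall
  have h2 : Sum.inr '' {n : Name | n ∈ upTo c ∧ AlgebraicOverE F (outer n)} ⊆ algebraicOnes F y (upTo c) := by
    rintro _ ⟨n, hn, rfl⟩
    exact hn
  calc _ = (Sum.inr '' {n : Name | n ∈ upTo c ∧ AlgebraicOverE F (outer n)} : Set (Fin c ⊕ Name)).encard :=
        (Sum.inr_injective.encard_image _).symm
    _ ≤ _ := encard_le_encard h2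
    _ ≤ _ := h

theorem result :
    -- the decompositions; the values for `a = 1/2`
    (∀ n, Admissible n → full n = inner n + outer n) ∧
    (∀ (k : ℕ) (x : ℚ), 2 ≤ k → full (.inr (.inr (k, 1 / 2, x))) = (2 ^ k - 1) * Real.pi ^ k * zeta k) ∧
    -- there are large simultaneously Liouville fields
    (∃ F : Subfield ℝ, SimLiouville F ∧ #F = 𝔠) ∧
    ∀ F : Subfield ℝ, SimLiouville F →
    -- (1)
    AlgebraicIndependent F (fun o : Option {n : Name // Admissible n} =>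
      o.elim (Real.exp 1) fun n => inner n.1) ∧
    -- (2)
    (∀ (r : ℕ) (y : Fin r → ℝ),
      (algebraicOnes F y {n | Admissible n ∧ AlgebraicOverEAnd F y (full n)}).encard ≤ (r : ℕ∞) ∧
      ∀ S : Finset Name, (∀ n ∈ S, Admissible n ∧ AlgebraicOverEAnd F y (full n)) →
        ((S.card + 1 : ℕ) : Cardinal) ≤ Algebra.trdeg F (IntermediateField.adjoin F
          ({Real.exp 1} ∪ range y ∪ outer '' (S : Set Name))) ∧
        ((S.card + 1 : ℕ) : Cardinal) ≤ Algebra.trdeg F (IntermediateField.adjoin F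
          ({Real.exp 1} ∪ outer '' (S : Set Name))) + r) ∧
    -- (3)
    (∀ c : ℕ, (algebraicOnes F (constants c) (upTo c)).encard ≤ ((c + 1 : ℕ) : ℕ∞) ∧
      (¬ AlgebraicIndependent F (fun o : Option (Fin (c + 1)) => o.elim (Real.exp 1) (constants c)) →
        {n : Name | n ∈ upTo c ∧ AlgebraicOverE F (outer n)}.encard ≤ (c : ℕ∞) ∧
        ∀ S : Finset Name, (∀ n ∈ S, n ∈ upTo c) →
          ((S.card + 1 : ℕ) : Cardinal) ≤ Algebra.trdeg F (IntermediateField.adjoin F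
            ({Real.exp 1} ∪ outer '' (S : Set Name))) + c)) := by
  refine ⟨fun n hn => ?_, fun k x hk => ?_, Pool.Agent.P8H10.ZOut.exists_big, fun F hF => ⟨?_, fun r y =>
    ⟨main hF y _ fun n hn => hn, fun S hS => main_trdeg hF y S hS⟩, fun c => ⟨?_, dep_count hF c⟩⟩⟩
  · rw [inner_eq hn, outer_eq hn, full_eq, rN]
    ring
  · show (Real.pi / Real.sin (Real.pi * ((1 / 2 : ℚ) : ℝ))) ^ k * hurwitz k ((1 / 2 : ℚ) : ℝ) = _
    have e : ((1 / 2 : ℚ) : ℝ) = 1 / 2 := by push_cast; rfl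
    rw [e, zeta_half hk, mul_one_div, Real.sin_pi_div_two, div_one]
    ring
  · let g : Option {n : Name // Admissible n} → Option {n : Nm // Val n} := Option.map fun n => ⟨n.1, adm n.2⟩
    have hg : Function.Injective g := by
      refine Option.map_injective ?_
      intro a b hab
      simp only [Subtype.mk.injEq] at hab
      exact Subtype.ext hab
    have h := (AI_all hF).comp g hg
    have e : (fun o : Option {n : Name // Admissible n} => o.elim (Real.exp 1) fun n => inner n.1) =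
        (fun o : Option {n : Nm // Val n} => o.elim (Real.exp 1) fun n => cN n.1) ∘ g := by
      funext o
      cases o with
      | none => rfl
      | some n => exact inner_eq n.2
    rw [e]
    exact h
  · exact main hF (constants c) _ fun n hn => ⟨hn.1, constants_mem _ (fun i => subset_clF _ (Or.inr ⟨i, rfl⟩)) hn⟩

end Pool.Agent.Results.MP_a89d6d_nt.PiZetaHurwitz
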