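import Mathlib
import Pool.Agent.P8H10.ZMain
import Pool.Agent.Results.MP_48b3e2_nt.IncompleteZetaValues

set_option autoImplicit false

/-!
# Systems of polynomials at `e`, `π`, odd zeta values and incomplete zeta integrals

For integers `k ≥ 2` and positive rational numbers `x` let `R_k(x)` be the number
`(-1)^k / k! * ∫ (∑_j ω^j log t_j)^k exp (-∑_j t_j) dt`, `ω = exp (2 π i / k)`, the integral being over the points
of the octant `(0, ∞)^k` which are not in the cube `(0, x)^k`. The integral over the octant is `ζ(k)`.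

Let `y_1, …, y_r` be real numbers, and let `S` be a finite set of pairs `(k, x)` as above such that `ζ(k)` is in
`ℚ[y_1, …, y_r]` for all `(k, x)` in `S`. For instance `y = (π, ζ(3), …, ζ(2c+1))`, and every `k` is even or at
most `2c + 1`.

(1) Let `P_1, …, P_m` be integer polynomials in `1 + r + |S|` variables, with total degree at most `D` and
coefficients at most `H ≥ 1`, such that every common zero with first coordinate `e` has coordinates which
generate a field of transcendence degree at most `|S|` over `ℚ`. Then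
`max |P_i(e, y_1, …, y_r, R_k(x) : (k, x) ∈ S)| ≥ c H ^ (-κ)` with positive `c`, `κ` which depend only on `y`, `S`, `m`, `D`.

(2) Let `v_0, …, v_r` be `r + 1` of the numbers `y_1, …, y_r`, `R_k(x)`. If the integer polynomials
`P_0, …, P_r` in two variables are nonzero and of total degree at most `D` with coefficients at most `H`, then
`max |P_j(e, v_j)| ≥ c H ^ (-κ)` with positive `c`, `κ` which depend only on `y`, `S`, `D` and the choice of the numbers.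

(3) The numbers `ζ(k)` are in `ℚ[π, ζ(3), …, ζ(2c+1)]` if `k` is even or at most `2c + 1`.
-/

namespace Pool.Agent.Results.MP_a89d6d_nt.SystemsOfPolynomials

open Set MeasureTheory

/-- the zeta value `ζ(s) = ∑ 1 / n^s` -/
noncomputable def zeta (s : ℕ) : ℝ := ∑' n : ℕ, 1 / ((n : ℝ) + 1) ^ s

/-- `ω = exp (2 π i / k)` -/
noncomputable def root (k : ℕ) : ℂ := Complex.exp (2 * Real.pi * Complex.I / k)

/-- `(∑_j ω^j log t_j)^k exp (-∑_j t_j)` -/
noncomputable def integrand (k : ℕ) (t : Fin k → ℝ) : ℂ :=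
  (∑ j : Fin k, root k ^ (j : ℕ) * (Real.log (t j) : ℂ)) ^ k * ((Real.exp (-∑ j, t j) : ℝ) : ℂ)

/-- the integral over the domain `V` -/
noncomputable def integralOver (k : ℕ) (V : Set (Fin k → ℝ)) : ℂ :=
  (-1) ^ k / k.factorial * ∫ t in V, integrand k t

/-- `(0, ∞)^k` -/
def octant (k : ℕ) : Set (Fin k → ℝ) := {t | ∀ j, 0 < t j}

/-- `(0, ∞)^k \ (0, x)^k` -/
def rest (k : ℕ) (x : ℝ) : Set (Fin k → ℝ) := {t | (∀ j, 0 < t j) ∧ ∃ j, x ≤ t j}

/-- `R_k(x)` -/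
noncomputable def R (k : ℕ) (x : ℚ) : ℝ := (integralOver k (rest k x)).re

/-- the numbers `π, ζ(3), ζ(5), …, ζ(2c+1)` -/
noncomputable def constants (c : ℕ) : Fin (c + 1) → ℝ := Fin.cons Real.pi fun i : Fin c => zeta (2 * i + 3)

/-- `t` is in `ℚ[y_1, …, y_r]` -/
def PolynomialIn {r : ℕ} (y : Fin r → ℝ) (t : ℝ) : Prop :=
  ∃ Q : MvPolynomial (Fin r) ℚ, t = MvPolynomial.aeval y Q

/-- the numbers `y_1, …, y_r` and `R_k(x)`, `(k, x) ∈ S` -/
noncomputable def number {r : ℕ} (y : Fin r → ℝ) (S : Finset (ℕ × ℚ)) : Fin r ⊕ S → ℝ :=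
  Sum.elim y fun p => R p.1.1 p.1.2

/-- the point with the coordinates `e`, `y_1, …, y_r` and `R_k(x)`, `(k, x) ∈ S` -/
noncomputable def point {r : ℕ} (y : Fin r → ℝ) (S : Finset (ℕ × ℚ)) : Option (Fin r ⊕ S) → ℝ :=
  fun o => o.elim (Real.exp 1) (number y S)

/-- total degree at most `D`, coefficients at most `H` in absolute value -/
def Bounded {σ : Type} (D : ℕ) (H : ℝ) (P : MvPolynomial σ ℤ) : Prop :=
  P.totalDegree ≤ D ∧ ∀ s, |((P.coeff s : ℤ) : ℝ)| ≤ H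

/-- `S` is a set of pairs `(k, x)` with `k ≥ 2`, `x > 0` and `ζ(k) ∈ ℚ[y_1, …, y_r]` -/
def Admissible {r : ℕ} (y : Fin r → ℝ) (S : Finset (ℕ × ℚ)) : Prop :=
  ∀ p ∈ S, 2 ≤ p.1 ∧ 0 < p.2 ∧ PolynomialIn y (zeta p.1)

theorem tail_eq {k : ℕ} (hk : 2 ≤ k) {x : ℚ} (hx : 0 < x) :
    integralOver k (rest k x) = (Pool.Agent.R352.Q.Rk k x : ℂ) :=
  Pool.Agent.Results.MP_48b3e2_nt.IncompleteZetaValues.tailIntegral_eq hk hx

theorem R_eq {k : ℕ} (hk : 2 ≤ k) {x : ℚ} (hx : 0 < x) : R k x = Pool.Agent.R352.Q.Rk k x := by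
  rw [R, tail_eq hk hx, Complex.ofReal_re]

theorem full_eq {k : ℕ} (hk : 2 ≤ k) : integralOver k (octant k) = (zeta k : ℂ) := by
  have h1 : octant k = Pool.Agent.R352.Q.cube k (Ioi 0) := by
    ext t
    simp [octant, Pool.Agent.R352.Q.cube]
  rw [h1]
  exact Pool.Agent.R352.Q.NI_full hk

/-- common denominators -/
theorem clear {σ : Type} (Q : MvPolynomial σ ℚ) : ∃ (d : ℕ) (Z : MvPolynomial σ ℤ), d ≠ 0 ∧
    MvPolynomial.map (Int.castRingHom ℚ) Z = (d : MvPolynomial σ ℚ) * Q := by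
  induction Q using MvPolynomial.induction_on with
  | C a =>
    refine ⟨a.den, MvPolynomial.C a.num, a.den_ne_zero, ?_⟩
    rw [MvPolynomial.map_C]
    have h1 : ((a.den : ℕ) : MvPolynomial σ ℚ) = MvPolynomial.C (a.den : ℚ) := by simp
    rw [h1, ← MvPolynomial.C_mul, Rat.den_mul_eq_num]
    rfl
  | add p q hp hq =>
    obtain ⟨d₁, Z₁, h1, h2⟩ := hp
    obtain ⟨d₂, Z₂, h3, h4⟩ := hq
    refine ⟨d₁ * d₂, (d₂ : MvPolynomial σ ℤ) * Z₁ + (d₁ : MvPolynomial σ ℤ) * Z₂, Nat.mul_ne_zero h1 h3, ?_⟩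
    rw [map_add, map_mul, map_mul, map_natCast, map_natCast, h2, h4]
    push_cast
    ring
  | mul_X p i hp =>
    obtain ⟨d₁, Z₁, h1, h2⟩ := hp
    refine ⟨d₁, Z₁ * MvPolynomial.X i, h1, ?_⟩
    rw [map_mul, MvPolynomial.map_X, h2]
    ring

theorem zetaPoly {r : ℕ} {y : Fin r → ℝ} {k : ℕ} (h : PolynomialIn y (zeta k)) :
    Pool.Agent.P8H10.UN.ZetaPoly y k := by
  obtain ⟨Q, hQ⟩ := h
  obtain ⟨d, Z, hd, hZ⟩ := clear Q
  refine ⟨d, Z, hd, ?_⟩
  have h1 : MvPolynomial.aeval y Z = MvPolynomial.aeval y (MvPolynomial.map (Int.castRingHom ℚ) Z) := by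
    rw [MvPolynomial.aeval_def, MvPolynomial.aeval_def, MvPolynomial.eval₂_map]
    congr 1
  rw [h1, hZ, map_mul, map_natCast, ← hQ]
  rfl

theorem pt_eq {r : ℕ} {y : Fin r → ℝ} {S : Finset (ℕ × ℚ)} (hS : Admissible y S) :
    point y S = Pool.Agent.P8H10.UN.pt y S := by
  funext o
  rcases o with _ | (j | p)
  · rfl
  · rfl
  · exact R_eq (hS p.1 p.2).1 (hS p.1 p.2).2.1

theorem zeta_even {k : ℕ} (hk : k ≠ 0) : ∃ q : ℚ, zeta (2 * k) = q * Real.pi ^ (2 * k) := by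
  have h1 := hasSum_zeta_nat hk
  have h2 : zeta (2 * k) = (-1 : ℝ) ^ (k + 1) * (2 : ℝ) ^ (2 * k - 1) * Real.pi ^ (2 * k) * bernoulli (2 * k) /
      (2 * k).factorial := by
    rw [← h1.tsum_eq, zeta]
    have hs : Summable (fun n : ℕ => 1 / (n : ℝ) ^ (2 * k)) := h1.summable
    rw [← hs.sum_add_tsum_nat_add 1]
    simp only [Finset.sum_range_succ, Finset.sum_range_zero, zero_add]
    have h0 : (0 : ℝ) ^ (2 * k) = 0 := zero_pow (by omega)
    rw [Nat.cast_zero, h0, div_zero, zero_add]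
    refine tsum_congr fun n => ?_
    push_cast
    rfl
  refine ⟨(-1) ^ (k + 1) * 2 ^ (2 * k - 1) * bernoulli (2 * k) / (2 * k).factorial, ?_⟩
  rw [h2]
  push_cast
  ring

theorem constants_mem {c k : ℕ} (hk : 2 ≤ k) (h : Even k ∨ k ≤ 2 * c + 1) :
    PolynomialIn (constants c) (zeta k) := by
  rcases Nat.even_or_odd' k with ⟨j, rfl | rfl⟩
  · obtain ⟨q, hq⟩ := zeta_even (k := j) (by omega)
    refine ⟨MvPolynomial.C q * MvPolynomial.X 0 ^ (2 * j), ?_⟩
    rw [hq, map_mul, map_pow, MvPolynomial.aeval_X, MvPolynomial.aeval_C]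
    rfl
  · have h1 : 2 * j + 1 ≤ 2 * c + 1 := by
      rcases h with h | h
      · exact absurd h (by simp)
      · exact h
    refine ⟨MvPolynomial.X (Fin.succ ⟨j - 1, by omega⟩), ?_⟩
    rw [MvPolynomial.aeval_X]
    simp only [constants, Fin.cons_succ]
    congr 1
    omega

theorem result :
    -- the integrals over the octant and over the rest
    (∀ k : ℕ, 2 ≤ k → integralOver k (octant k) = (zeta k : ℂ) ∧
      ∀ x : ℚ, 0 < x → integralOver k (rest k x) = (R k x : ℂ)) ∧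
    -- (1)
    (∀ (r : ℕ) (y : Fin r → ℝ) (S : Finset (ℕ × ℚ)), Admissible y S → ∀ m D : ℕ, ∃ κ c : ℝ, 0 < κ ∧ 0 < c ∧
      ∀ (P : Fin m → MvPolynomial (Option (Fin r ⊕ S)) ℤ) (H : ℝ), 1 ≤ H → (∀ i, Bounded D H (P i)) →
        (∀ z : Option (Fin r ⊕ S) → ℂ, z none = (Real.exp 1 : ℝ) → (∀ i, MvPolynomial.aeval z (P i) = 0) →
          Algebra.trdeg ℚ (IntermediateField.adjoin ℚ (range z)) ≤ S.card) →
        ∃ i, c * H ^ (-κ) ≤ |MvPolynomial.aeval (point y S) (P i)|) ∧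
    -- (2)
    (∀ (r : ℕ) (y : Fin r → ℝ) (S : Finset (ℕ × ℚ)), Admissible y S → ∀ i : Fin (r + 1) → Fin r ⊕ S,
      Function.Injective i → ∀ D : ℕ, ∃ κ c : ℝ, 0 < κ ∧ 0 < c ∧
      ∀ (P : Fin (r + 1) → MvPolynomial (Fin 2) ℤ) (H : ℝ), (∀ j, P j ≠ 0 ∧ Bounded D H (P j)) →
        ∃ j, c * H ^ (-κ) ≤ |MvPolynomial.aeval ![Real.exp 1, number y S (i j)] (P j)|) ∧
    -- (3)
    (∀ c k : ℕ, 2 ≤ k → (Even k ∨ k ≤ 2 * c + 1) → PolynomialIn (constants c) (zeta k)) := by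
  refine ⟨fun k hk => ⟨full_eq hk, fun x hx => ?_⟩, fun r y S hS m D => ?_, fun r y S hS i hi D => ?_,
    fun c k hk h => constants_mem hk h⟩
  · rw [tail_eq hk hx, R_eq hk hx]
  · obtain ⟨κ, c, hκ, hc, h⟩ := Pool.Agent.P8H10.UN.main_trdeg y S (fun p hp => ⟨(hS p hp).1, (hS p hp).2.1⟩)
      (fun p => zetaPoly (hS p.1 p.2).2.2) (Fin m) D
    rw [pt_eq hS]
    exact ⟨κ, c, hκ, hc, fun P H hH hP hz => h P (fun i => (hP i).1) H hH (fun i => (hP i).2) hz⟩
  · obtain ⟨κ, c, hκ, hc, h⟩ := Pool.Agent.P8H10.UN.main_count y S (fun p hp => ⟨(hS p hp).1, (hS p hp).2.1⟩)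
      (fun p => zetaPoly (hS p.1 p.2).2.2) i hi D
    refine ⟨κ, c, hκ, hc, fun P H hP => ?_⟩
    obtain ⟨j, hj⟩ := h P (fun j => (hP j).1) (fun j => (hP j).2.1) H (fun j => (hP j).2.2)
    refine ⟨j, ?_⟩
    have e1 : number y S (i j) = Pool.Agent.P8H10.UN.pt y S (some (i j)) := by
      rw [← pt_eq hS]
      rfl
    rw [e1]
    exact hj

end Pool.Agent.Results.MP_a89d6d_nt.SystemsOfPolynomials
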